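import Mathlib

namespace Pool.Agent.H.MP_3e9a14_an

open Set Filter Topology

section Semigroup

variable {M : Type*} [AddSemigroup M] [TopologicalSpace M] [CompactSpace M] [T2Space M]

theorem minL (hc : ∀ r : M, Continuous (· + r)) (I : Set M) (h1 : IsClosed I) (h2 : I.Nonempty)
    (h3 : ∀ a, ∀ b ∈ I, a + b ∈ I) :
    ∃ L ⊆ I, IsClosed L ∧ L.Nonempty ∧ (∀ a, ∀ b ∈ L, a + b ∈ L) ∧
      ∀ w ∈ L, ∀ z ∈ L, ∃ s ∈ L, s + w = z := by
  let S : Set (Set M) := {N | IsClosed N ∧ N.Nonempty ∧ ∀ a, ∀ b ∈ N, a + b ∈ N}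
  obtain ⟨L, hLI, hL⟩ : ∃ L, L ⊆ I ∧ Minimal (· ∈ S) L := by
    refine zorn_superset_nonempty S (fun c hcs hc' hne => ?_) I ⟨h1, h2, h3⟩
    refine ⟨⋂₀ c, ⟨isClosed_sInter fun t ht => (hcs ht).1, ?_, fun a b hb => ?_⟩, fun s hs =>
      Set.sInter_subset_of_mem hs⟩
    · rw [Set.sInter_eq_iInter]
      have := hne.coe_sort
      exact IsCompact.nonempty_iInter_of_directed_nonempty_isCompact_isClosed _
        (DirectedOn.directed_val (IsChain.directedOn hc'.symm)) (fun i => (hcs i.prop).2.1)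
        (fun i => (hcs i.prop).1.isCompact) (fun i => (hcs i.prop).1)
    · rw [Set.mem_sInter]
      exact fun t ht => (hcs ht).2.2 a b (Set.mem_sInter.mp hb t ht)
  obtain ⟨c1, c2, c3⟩ := hL.prop
  refine ⟨L, hLI, c1, c2, c3, fun w hw z hz => ?_⟩
  have : (· + w) '' L = L := by
    apply hL.eq_of_subset
    · refine ⟨(hc w).isClosedMap _ c1, c2.image _, ?_⟩
      rintro a _ ⟨b, hb, rfl⟩
      exact ⟨a + b, c3 _ _ hb, add_assoc _ _ _⟩
    · rintro _ ⟨b, _, rfl⟩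
      exact c3 _ _ hw
  rw [← this] at hz
  exact hz

theorem idemFix (hc : ∀ r : M, Continuous (· + r)) {L : Set M} (c1 : IsClosed L)
    (c3 : ∀ a, ∀ b ∈ L, a + b ∈ L) (c4 : ∀ w ∈ L, ∀ z ∈ L, ∃ s ∈ L, s + w = z)
    {w : M} (hw : w ∈ L) : ∃ v ∈ L, v + v = v ∧ v + w = w := by
  obtain ⟨v, hv, hv'⟩ := exists_idempotent_in_compact_add_subsemigroup hc
    (L ∩ {s | s + w = w}) (by obtain ⟨s, hs, h⟩ := c4 w hw w hw; exact ⟨s, hs, h⟩)
    (c1.inter (isClosed_eq (hc w) continuous_const)).isCompact (by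
      rintro a ⟨_, ha⟩ b ⟨hb, hb'⟩
      refine ⟨c3 _ _ hb, ?_⟩
      simp only [mem_ofPred_eq] at ha hb' ⊢
      rw [add_assoc, hb', ha])
  exact ⟨v, hv.1, hv', hv.2⟩

theorem idemRight (hc : ∀ r : M, Continuous (· + r)) {L : Set M} (c1 : IsClosed L)
    (c2 : L.Nonempty) (c3 : ∀ a, ∀ b ∈ L, a + b ∈ L)
    (c4 : ∀ w ∈ L, ∀ z ∈ L, ∃ s ∈ L, s + w = z) (a : M) :
    ∃ b, a + b ∈ L ∧ (a + b) + (a + b) = a + b := by
  obtain ⟨w, hw⟩ := c2
  obtain ⟨u, hu, huu, -⟩ := idemFix hc c1 c3 c4 hw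
  have hz : ∀ z ∈ L, z + u = z := by
    intro z hz
    obtain ⟨s, _, rfl⟩ := c4 u hu z hz
    rw [add_assoc, huu]
  obtain ⟨b, hb, hbA⟩ := c4 (u + a + u) (c3 _ _ hu) u hu
  refine ⟨u + b, c3 _ _ (c3 _ _ hb), ?_⟩
  calc a + (u + b) + (a + (u + b)) = a + (u + (b + u)) + (a + (u + b)) := by rw [hz b hb]
    _ = a + (u + (b + (u + a + u)) + b) := by simp only [add_assoc]
    _ = a + (u + b) := by rw [hbA, huu]

end Semigroup

attribute [local instance] Ultrafilter.add Ultrafilter.addSemigroup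

theorem ideal_top : IsClosed {u : Ultrafilter ℤ | (u : Filter ℤ) ≤ atTop} ∧
    {u : Ultrafilter ℤ | (u : Filter ℤ) ≤ atTop}.Nonempty ∧
    ∀ a : Ultrafilter ℤ, ∀ b ∈ {u : Ultrafilter ℤ | (u : Filter ℤ) ≤ atTop},
      a + b ∈ {u : Ultrafilter ℤ | (u : Filter ℤ) ≤ atTop} := by
  refine ⟨?_, ⟨Ultrafilter.of atTop, Ultrafilter.of_le _⟩, fun a b hb s hs => ?_⟩
  · have : {u : Ultrafilter ℤ | (u : Filter ℤ) ≤ atTop} = ⋂ s ∈ (atTop : Filter ℤ), {u | s ∈ u} := by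
      ext u; simp only [mem_ofPred_eq, mem_iInter]; rfl
    rw [this]
    exact isClosed_biInter fun s _ => ultrafilter_isClosed_basic s
  · refine (Ultrafilter.eventually_add a b (· ∈ s)).2 (Eventually.of_forall fun n => hb ?_)
    exact tendsto_atTop_add_const_left atTop n tendsto_id hs

theorem ideal_bot : IsClosed {u : Ultrafilter ℤ | (u : Filter ℤ) ≤ atBot} ∧
    {u : Ultrafilter ℤ | (u : Filter ℤ) ≤ atBot}.Nonempty ∧
    ∀ a : Ultrafilter ℤ, ∀ b ∈ {u : Ultrafilter ℤ | (u : Filter ℤ) ≤ atBot},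
      a + b ∈ {u : Ultrafilter ℤ | (u : Filter ℤ) ≤ atBot} := by
  refine ⟨?_, ⟨Ultrafilter.of atBot, Ultrafilter.of_le _⟩, fun a b hb s hs => ?_⟩
  · have : {u : Ultrafilter ℤ | (u : Filter ℤ) ≤ atBot} = ⋂ s ∈ (atBot : Filter ℤ), {u | s ∈ u} := by
      ext u; simp only [mem_ofPred_eq, mem_iInter]; rfl
    rw [this]
    exact isClosed_biInter fun s _ => ultrafilter_isClosed_basic s
  · refine (Ultrafilter.eventually_add a b (· ∈ s)).2 (Eventually.of_forall fun n => hb ?_)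
    exact tendsto_atBot_add_const_left atBot n tendsto_id hs

noncomputable def ng (a : Ultrafilter ℤ) : Ultrafilter ℤ := a.map fun n => -n

theorem ev_ng (a : Ultrafilter ℤ) (p : ℤ → Prop) : (∀ᶠ n in ng a, p n) ↔ ∀ᶠ n in a, p (-n) :=
  Iff.rfl

theorem ng_ng (a : Ultrafilter ℤ) : ng (ng a) = a :=
  Ultrafilter.coe_inj.mp <| Filter.ext' fun p => by simp [ev_ng]

theorem ng_add (a b : Ultrafilter ℤ) : ng (a + b) = ng a + ng b :=
  Ultrafilter.coe_inj.mp <| Filter.ext' fun p => by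
    simp only [ev_ng, Ultrafilter.eventually_add, neg_add]

section Dyn

variable {X : Type*} [TopologicalSpace X] [RegularSpace X] (φ : ℤ → X → X) (x : X)

def Fix (a : Ultrafilter ℤ) : Prop := Tendsto (fun n => φ n x) a (𝓝 x)

variable {φ x}

theorem fix_add (hc : ∀ n, Continuous (φ n)) (ha : ∀ m n y, φ (m + n) y = φ m (φ n y))
    {u : Ultrafilter ℤ} (hu : Fix φ x u) (a : Ultrafilter ℤ) : Fix φ x (a + u) ↔ Fix φ x a := by
  have ht : ∀ n, Tendsto (fun m => φ (n + m) x) u (𝓝 (φ n x)) := by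
    intro n
    simp only [ha]
    exact ((hc n).tendsto x).comp hu
  constructor
  · intro h
    rw [Fix, (closed_nhds_basis x).tendsto_right_iff]
    rintro V ⟨hV, hV'⟩
    have := (Ultrafilter.eventually_add a u (fun n => φ n x ∈ V)).1 (h hV)
    filter_upwards [this] with n hn
    exact hV'.mem_of_tendsto (ht n) hn
  · intro h
    rw [Fix, (nhds_basis_opens x).tendsto_right_iff]
    rintro V ⟨hV, hV'⟩
    refine (Ultrafilter.eventually_add a u (fun n => φ n x ∈ V)).2 ?_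
    filter_upwards [h (hV'.mem_nhds hV)] with n hn
    exact ht n (hV'.mem_nhds hn)

theorem fix_idem (hc : ∀ n, Continuous (φ n)) (ha : ∀ m n y, φ (m + n) y = φ m (φ n y))
    (h : ∀ u : Ultrafilter ℤ, u + u = u → (u : Filter ℤ) ≤ atTop → Fix φ x u)
    (e : Ultrafilter ℤ) (he : e + e = e) : Fix φ x e := by
  obtain ⟨L, hL, c1, c2, c3, c4⟩ := minL Ultrafilter.continuous_add_left _
    ideal_top.1 ideal_top.2.1 ideal_top.2.2
  obtain ⟨b, hb, hbb⟩ := idemRight Ultrafilter.continuous_add_left c1 c2 c3 c4 e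
  have h1 := h _ hbb (hL hb)
  refine (fix_add hc ha h1 e).1 ?_
  rwa [← add_assoc, he]

theorem fix_delta (hc : ∀ n, Continuous (φ n)) (ha : ∀ m n y, φ (m + n) y = φ m (φ n y))
    (h : ∀ u : Ultrafilter ℤ, u + u = u → Fix φ x u)
    (hd : ∀ r : Ultrafilter ℤ, (r : Filter ℤ) ≤ atTop → Fix φ x (ng r + r))
    (p : Ultrafilter ℤ) : Fix φ x (p + ng p) := by
  obtain ⟨L, hL, c1, c2, c3, c4⟩ := minL Ultrafilter.continuous_add_left _
    ideal_bot.1 ideal_bot.2.1 ideal_bot.2.2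
  obtain ⟨w, hw⟩ := c2
  obtain ⟨u', hu', huu', -⟩ := idemFix Ultrafilter.continuous_add_left c1 c3 c4 hw
  obtain ⟨v, hv, hvv, hvw⟩ := idemFix Ultrafilter.continuous_add_left c1 c3 c4 (c3 (ng p) _ hu')
  have h1 : ((ng v : Ultrafilter ℤ) : Filter ℤ) ≤ atTop :=
    (tendsto_neg_atBot_atTop (G := ℤ)).mono_left (hL hv)
  have h2 := hd _ (ideal_top.2.2 (ng p) _ h1)
  rw [ng_add, ng_ng, ng_ng, ← add_assoc,
    fix_add hc ha (h (ng v) (by rw [← ng_add, hvv])), ← fix_add hc ha (h u' huu'),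
    add_assoc, add_assoc, hvw, ← add_assoc, fix_add hc ha (h u' huu')] at h2
  exact h2

end Dyn

theorem fs_finset {a : Stream' ℤ} {m : ℤ} (h : m ∈ Hindman.FS a) :
    ∃ F : Finset ℕ, F.Nonempty ∧ m = ∑ i ∈ F, a.get i := by
  induction h with
  | head' a => exact ⟨{0}, by simp, by simp [Stream'.head]⟩
  | tail' a m _ ih =>
    obtain ⟨F, hF, rfl⟩ := ih
    refine ⟨F.map ⟨Nat.succ, Nat.succ_injective⟩, by simpa using hF, ?_⟩
    simp [Finset.sum_map, Stream'.tail, Stream'.get]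
  | cons' a m _ ih =>
    obtain ⟨F, hF, rfl⟩ := ih
    refine ⟨insert 0 (F.map ⟨Nat.succ, Nat.succ_injective⟩), by simp, ?_⟩
    rw [Finset.sum_insert (by simp)]
    simp [Finset.sum_map, Stream'.tail, Stream'.get, Stream'.head]

section Main

variable {X : Type*} [TopologicalSpace X] [RegularSpace X] (T : X ≃ₜ X) (x : X)

noncomputable def act (n : ℤ) : X → X := ⇑((T.toEquiv : Equiv.Perm X) ^ n)

omit [RegularSpace X] in
theorem act_nat (n : ℕ) : act T n = T^[n] := by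
  simp [act, Equiv.Perm.coe_pow]

omit [RegularSpace X] in
theorem act_neg (n : ℕ) : act T (-n) = T.symm^[n] := by
  rw [act, zpow_neg, ← inv_zpow, zpow_natCast, Equiv.Perm.coe_pow]; rfl

omit [RegularSpace X] in
theorem act_cont (n : ℤ) : Continuous (act T n) := by
  obtain ⟨k, rfl | rfl⟩ := n.eq_nat_or_neg
  · rw [act_nat]; exact T.continuous.iterate k
  · rw [act_neg]; exact T.symm.continuous.iterate k

omit [RegularSpace X] in
theorem act_add (m n : ℤ) (y : X) : act T (m + n) y = act T m (act T n y) := by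
  simp [act, zpow_add]

theorem unif (h : ∀ U ∈ 𝓝 x, ∃ L : ℕ, ∀ m, ∃ n, (1 ≤ n ∧ T^[n] x ∈ U) ∧ m ≤ n ∧ n ≤ m + L) :
    ∀ U ∈ 𝓝 x, ∃ L : ℕ, ∀ m, ∃ n, (1 ≤ n ∧ T.symm^[n] x ∈ U) ∧ m ≤ n ∧ n ≤ m + L := by
  intro U hU
  obtain ⟨V, hV, hVc, hVU⟩ := exists_mem_nhds_isClosed_subset hU
  obtain ⟨L, hL⟩ := h V hV
  refine ⟨L + 1, fun m => ?_⟩
  by_contra hcon
  push Not at hcon
  have hW : (⋂ n ∈ Finset.Icc (m + 1) (m + 1 + L), T.symm^[n] ⁻¹' Vᶜ) ∈ 𝓝 x := by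
    refine (biInter_finset_mem _).2 fun n hn => ?_
    rw [Finset.mem_Icc] at hn
    refine (hVc.isOpen_compl.preimage (T.symm.continuous.iterate n)).mem_nhds fun hx => ?_
    have := hcon n ⟨by omega, hVU hx⟩ (by omega)
    omega
  obtain ⟨L', hL'⟩ := h _ hW
  obtain ⟨k, ⟨-, hk⟩, hk1, -⟩ := hL' (m + 1 + L)
  obtain ⟨j, ⟨-, hj⟩, hj1, hj2⟩ := hL (k - (m + 1 + L))
  simp only [mem_iInter, Finset.mem_Icc, mem_preimage, mem_compl_iff] at hk
  refine hk (k - j) ⟨by omega, by omega⟩ ?_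
  rw [← act_neg, ← act_nat, ← act_add]
  rw [← act_nat] at hj
  convert hj using 2
  omega

omit [RegularSpace X] in
theorem ip_fix (h : ∀ U ∈ 𝓝 x, ∀ a : ℕ → ℕ, (∀ i, 0 < a i) →
      ∃ F : Finset ℕ, F.Nonempty ∧ 1 ≤ ∑ i ∈ F, a i ∧ T^[∑ i ∈ F, a i] x ∈ U)
    (u : Ultrafilter ℤ) (hu : u + u = u) (hp : (u : Filter ℤ) ≤ atTop) : Fix (act T) x u := by
  intro U hU
  by_contra hcon
  have h1 : {n : ℤ | act T n x ∉ U} ∈ u := Ultrafilter.compl_mem_iff_notMem.2 hcon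
  obtain ⟨a, ha⟩ := Hindman.exists_FS_of_large u hu _ (inter_mem h1 (hp (eventually_gt_atTop 0)))
  have h2 : ∀ i, 0 < a.get i := fun i => (ha (Hindman.FS.singleton a i)).2
  obtain ⟨F, hF, -, hFU⟩ := h U hU (fun i => (a.get i).toNat) fun i => by
    have := h2 i; omega
  refine (ha (Hindman.FS.finsetSum a F hF)).1 ?_
  rw [← act_nat] at hFU
  convert hFU using 2
  push_cast
  exact Finset.sum_congr rfl fun i _ => (Int.toNat_of_nonneg (h2 i).le).symm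

theorem ip (h : ∀ U ∈ 𝓝 x, ∀ a : ℕ → ℕ, (∀ i, 0 < a i) →
      ∃ F : Finset ℕ, F.Nonempty ∧ 1 ≤ ∑ i ∈ F, a i ∧ T^[∑ i ∈ F, a i] x ∈ U) :
    ∀ U ∈ 𝓝 x, ∀ a : ℕ → ℕ, (∀ i, 0 < a i) →
      ∃ F : Finset ℕ, F.Nonempty ∧ 1 ≤ ∑ i ∈ F, a i ∧ T.symm^[∑ i ∈ F, a i] x ∈ U := by
  intro U hU a ha
  obtain ⟨e, he, hfs⟩ := Hindman.exists_idempotent_ultrafilter_le_FS
    (fun i => -(a i : ℤ) : Stream' ℤ)
  have h1 := fix_idem (act_cont T) (act_add T) (ip_fix T x h) e he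
  obtain ⟨m, hm, hmU⟩ := (hfs.and (h1 hU)).exists
  obtain ⟨F, hF, rfl⟩ := fs_finset hm
  refine ⟨F, hF, Finset.sum_pos (fun i _ => ha i) hF, ?_⟩
  rw [← act_neg]
  convert hmU using 2
  simp [Stream'.get]

omit [RegularSpace X] in
theorem delta_fix (h : ∀ U ∈ 𝓝 x, ∀ s : ℕ → ℕ, StrictMono s → (∀ i, 0 < s i) →
      ∃ i j, i < j ∧ 1 ≤ s j - s i ∧ T^[s j - s i] x ∈ U)
    (r : Ultrafilter ℤ) (hr : (r : Filter ℤ) ≤ atTop) : Fix (act T) x (ng r + r) := by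
  intro U hU
  by_contra hcon
  have h1 : {n : ℤ | act T n x ∉ U} ∈ ng r + r := Ultrafilter.compl_mem_iff_notMem.2 hcon
  have h2 : ∀ᶠ a in r, ∀ᶠ b in r, act T (-a + b) x ∉ U :=
    (Ultrafilter.eventually_add (ng r) r (fun n => act T n x ∉ U)).1 h1
  obtain ⟨s, hs1, hs2⟩ := exists_seq_of_forall_finset_exists
    (fun a : ℤ => 0 < a ∧ ∀ᶠ b in r, act T (-a + b) x ∉ U)
    (fun a b => a < b ∧ act T (-a + b) x ∉ U) (fun F hF => by
      have h3 : ∀ᶠ b in r, ∀ a ∈ F, a < b ∧ act T (-a + b) x ∉ U :=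
        (eventually_all_finset F).2 fun a ha => ((eventually_gt_atTop a).filter_mono hr).and (hF a ha).2
      obtain ⟨b, hb⟩ := (h3.and (((eventually_gt_atTop 0).filter_mono hr).and h2)).exists
      exact ⟨b, hb.2, hb.1⟩)
  obtain ⟨i, j, hij, -, hU'⟩ := h U hU (fun i => (s i).toNat) (fun i j hij => by
    have := (hs2 i j hij).1
    have := (hs1 i).1
    simp only
    omega) (fun i => by have := (hs1 i).1; omega)
  refine (hs2 i j hij).2 ?_
  rw [← act_nat] at hU'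
  convert hU' using 2
  have := (hs2 i j hij).1
  have := (hs1 i).1
  omega

theorem delta (h : ∀ U ∈ 𝓝 x, ∀ s : ℕ → ℕ, StrictMono s → (∀ i, 0 < s i) →
      ∃ i j, i < j ∧ 1 ≤ s j - s i ∧ T^[s j - s i] x ∈ U) :
    ∀ U ∈ 𝓝 x, ∀ s : ℕ → ℕ, StrictMono s → (∀ i, 0 < s i) →
      ∃ i j, i < j ∧ 1 ≤ s j - s i ∧ T.symm^[s j - s i] x ∈ U := by
  have hip : ∀ U ∈ 𝓝 x, ∀ a : ℕ → ℕ, (∀ i, 0 < a i) →
      ∃ F : Finset ℕ, F.Nonempty ∧ 1 ≤ ∑ i ∈ F, a i ∧ T^[∑ i ∈ F, a i] x ∈ U := by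
    intro U hU a ha
    obtain ⟨i, j, hij, h1, h2⟩ := h U hU (fun k => ∑ i ∈ Finset.range (k + 1), a i)
      (strictMono_nat_of_lt_succ fun k => by
        rw [Finset.sum_range_succ _ (k + 1)]; have := ha (k + 1); omega)
      (fun k => Finset.sum_pos (fun i _ => ha i) (by simp))
    have e : ∑ i ∈ Finset.range (j + 1), a i - ∑ i ∈ Finset.range (i + 1), a i
        = ∑ l ∈ Finset.Ico (i + 1) (j + 1), a l := by
      rw [← Finset.sum_range_add_sum_Ico a (by omega : i + 1 ≤ j + 1)]; omega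
    rw [e] at h1 h2
    exact ⟨_, ⟨j, by simp; omega⟩, h1, h2⟩
  intro U hU s hs _
  set q : Ultrafilter ℕ := Ultrafilter.of atTop with hq
  have hq' : (q : Filter ℕ) ≤ atTop := Ultrafilter.of_le _
  have h1 := fix_delta (act_cont T) (act_add T)
    (fix_idem (act_cont T) (act_add T) (ip_fix T x hip)) (delta_fix T x h)
    (q.map fun i => (s i : ℤ))
  have h2 : ∀ᶠ i in q, ∀ᶠ j in q, act T ((s i : ℤ) + -(s j : ℤ)) x ∈ U :=
    (Ultrafilter.eventually_add (q.map fun i => (s i : ℤ)) (ng (q.map fun i => (s i : ℤ)))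
      (fun n => act T n x ∈ U)).1 (h1 hU)
  obtain ⟨i, hi⟩ := h2.exists
  obtain ⟨j, hj, hij⟩ := (hi.and (hq' (eventually_gt_atTop i))).exists
  have := hs hij
  refine ⟨i, j, hij, by omega, ?_⟩
  rw [← act_neg]
  convert hj using 2
  omega

end Main

end Pool.Agent.H.MP_3e9a14_an
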