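import Mathlib

namespace Pool.Agent.H.MP_3e9a14_an.B

open Set Filter Topology Metric

def Big (A : Set ℕ) (δ : ℝ) (N0 : ℕ) : Prop :=
  ∃ N ≥ N0, ∃ m : ℕ, δ * N ≤ (A ∩ Icc (m + 1) (m + N)).ncard

theorem big_iff (A : Set ℕ) :
    0 < limsup (fun N : ℕ => ⨆ m : ℕ, ((A ∩ Icc (m + 1) (m + N)).ncard : ℝ) / N) atTop ↔
      ∃ δ > 0, ∀ N0, Big A δ N0 := by
  have h1 : ∀ N m : ℕ, ((A ∩ Icc (m + 1) (m + N)).ncard : ℝ) / N ≤ 1 := by
    intro N m
    refine div_le_one_of_le₀ ?_ (Nat.cast_nonneg N)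
    have := Set.ncard_le_ncard (inter_subset_right : A ∩ Icc (m + 1) (m + N) ⊆ _) (finite_Icc _ _)
    have e : (Icc (m + 1) (m + N)).ncard = N := by
      rw [← Finset.coe_Icc, Set.ncard_coe_finset]; simp
    rw [e] at this
    exact_mod_cast this
  have hb : ∀ N : ℕ, BddAbove (range fun m : ℕ => ((A ∩ Icc (m + 1) (m + N)).ncard : ℝ) / N) :=
    fun N => ⟨1, by rintro _ ⟨m, rfl⟩; exact h1 N m⟩
  constructor
  · intro h
    obtain ⟨δ, hδ, hδ'⟩ := exists_between h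
    refine ⟨δ, hδ, fun N0 => ?_⟩
    have := frequently_lt_of_lt_limsup (isCoboundedUnder_le_of_le atTop (x := 0) fun N =>
      le_ciSup_of_le (hb N) 0 (by positivity)) hδ'
    obtain ⟨N, hN, hN'⟩ := (this.and_eventually (eventually_ge_atTop (N0 + 1))).exists
    obtain ⟨m, hm⟩ := exists_lt_of_lt_ciSup hN
    have : (0:ℝ) < N := by exact_mod_cast (by omega : 0 < N)
    exact ⟨N, by omega, m, ((lt_div_iff₀ this).1 hm).le⟩
  · rintro ⟨δ, hδ, h⟩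
    refine hδ.trans_le (le_limsup_of_frequently_le ?_
      (isBoundedUnder_of ⟨1, fun N => ciSup_le (h1 N)⟩))
    rw [frequently_atTop]
    intro N0
    obtain ⟨N, hN, m, hm⟩ := h (N0 + 1)
    have : (0:ℝ) < N := by exact_mod_cast (by omega : 0 < N)
    exact ⟨N, by omega, le_ciSup_of_le (hb N) m ((le_div_iff₀ this).2 hm)⟩

theorem big_unb {A : Set ℕ} {δ : ℝ} (hδ : 0 < δ) (h : ∀ N0, Big A δ N0) (M : ℕ) :
    ∃ n ≥ M, n ∈ A := by
  by_contra hc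
  push Not at hc
  obtain ⟨N0, hN0⟩ := exists_nat_gt (M / δ)
  obtain ⟨N, hN, m, hm⟩ := h N0
  have h1 : A ∩ Icc (m + 1) (m + N) ⊆ Iio M := fun n hn => by
    by_contra h2
    exact hc n (not_lt.1 h2) hn.1
  have h2 := Set.ncard_le_ncard h1 (finite_Iio _)
  have e : (Iio M).ncard = M := by rw [← Finset.coe_Iio, Set.ncard_coe_finset]; simp
  rw [e] at h2
  have h3 : ((A ∩ Icc (m + 1) (m + N)).ncard : ℝ) ≤ M := by exact_mod_cast h2
  have h4 : (N0 : ℝ) ≤ N := by exact_mod_cast hN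
  rw [div_lt_iff₀ hδ] at hN0
  nlinarith

variable {X : Type*} [MetricSpace X] (T : X ≃ₜ X)

def G (V : Set X) (δ : ℝ) (N0 : ℕ) : Set X := {z | Big {n | 1 ≤ n ∧ T.symm^[n] z ∈ V} δ N0}

theorem G_open {V : Set X} (hV : IsOpen V) (δ : ℝ) (N0 : ℕ) : IsOpen (G T V δ N0) := by
  rw [isOpen_iff_mem_nhds]
  rintro z ⟨N, hN, m, hm⟩
  have hf : ({n | 1 ≤ n ∧ T.symm^[n] z ∈ V} ∩ Icc (m + 1) (m + N)).Finite :=
    (finite_Icc _ _).subset inter_subset_right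
  have : ∀ᶠ w in 𝓝 z, ∀ n ∈ {n | 1 ≤ n ∧ T.symm^[n] z ∈ V} ∩ Icc (m + 1) (m + N),
      T.symm^[n] w ∈ V :=
    (eventually_all_finite hf).2 fun n hn =>
      (hV.preimage (T.symm.continuous.iterate n)).mem_nhds hn.1.2
  filter_upwards [this] with w hw
  refine ⟨N, hN, m, hm.trans ?_⟩
  have : ({n | 1 ≤ n ∧ T.symm^[n] z ∈ V} ∩ Icc (m + 1) (m + N)).ncard ≤
      ({n | 1 ≤ n ∧ T.symm^[n] w ∈ V} ∩ Icc (m + 1) (m + N)).ncard :=
    Set.ncard_le_ncard (fun n hn => ⟨⟨hn.1.1, hw n hn⟩, hn.2⟩)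
      ((finite_Icc _ _).subset inter_subset_right)
  exact_mod_cast this

theorem G_ev {V : Set X} {δ : ℝ} {N0 : ℕ} {x : X} (h : Big {n | 1 ≤ n ∧ T^[n] x ∈ V} δ N0) :
    ∀ᶠ k in atTop, T^[k] x ∈ G T V δ N0 := by
  obtain ⟨N, hN, m, hm⟩ := h
  filter_upwards [eventually_ge_atTop (m + N + 1)] with k hk
  refine ⟨N, hN, k - (m + N + 1), hm.trans ?_⟩
  have : ({n | 1 ≤ n ∧ T^[n] x ∈ V} ∩ Icc (m + 1) (m + N)).ncard ≤
      ({n | 1 ≤ n ∧ T.symm^[n] (T^[k] x) ∈ V} ∩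
        Icc (k - (m + N + 1) + 1) (k - (m + N + 1) + N)).ncard := by
    refine Set.ncard_le_ncard_of_injOn (fun n => k - n) ?_ ?_
      ((finite_Icc _ _).subset inter_subset_right)
    · rintro n ⟨⟨_, h2⟩, h3, h4⟩
      refine ⟨⟨by omega, ?_⟩, by omega, by omega⟩
      have e : T^[k] x = T^[k - n] (T^[n] x) := by
        rw [← Function.iterate_add_apply]; congr 1; omega
      rw [e, (Function.LeftInverse.iterate T.symm_apply_apply (k - n))]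
      exact h2
    · rintro a ⟨_, _, h1⟩ b ⟨_, _, h2⟩ hab
      simp only at hab
      omega
  exact_mod_cast this

theorem shift {x : X} (hx : ∀ U ∈ 𝓝 x, ∃ δ > 0, ∀ N0, Big {n | 1 ≤ n ∧ T^[n] x ∈ U} δ N0)
    (k : ℕ) {V : Set X} (hV : V ∈ 𝓝 (T^[k] x)) :
    ∃ δ > 0, ∀ N0, Big {n | 1 ≤ n ∧ T^[n] x ∈ V} δ N0 := by
  obtain ⟨δ, hδ, h⟩ := hx _ ((T.continuous.iterate k).continuousAt.preimage_mem_nhds hV)
  refine ⟨δ, hδ, fun N0 => ?_⟩
  obtain ⟨N, hN, m, hm⟩ := h N0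
  refine ⟨N, hN, m + k, hm.trans ?_⟩
  have : ({n | 1 ≤ n ∧ T^[n] x ∈ T^[k] ⁻¹' V} ∩ Icc (m + 1) (m + N)).ncard ≤
      ({n | 1 ≤ n ∧ T^[n] x ∈ V} ∩ Icc (m + k + 1) (m + k + N)).ncard := by
    refine Set.ncard_le_ncard_of_injOn (fun n => k + n) ?_ ?_
      ((finite_Icc _ _).subset inter_subset_right)
    · rintro n ⟨⟨_, h2⟩, h3, h4⟩
      refine ⟨⟨by omega, ?_⟩, by omega, by omega⟩
      rw [Function.iterate_add_apply]
      exact h2
    · rintro a _ b _ hab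
      simp only at hab
      omega
  exact_mod_cast this

structure St (x : X) (j : ℕ) where
  k : ℕ
  r : ℝ
  δ : ℝ
  C : ℕ → Set X
  r0 : 0 < r
  r1 : r ≤ (1 / 2) ^ j
  δ0 : 0 < δ
  big : ∀ N0, Big {n | 1 ≤ n ∧ T^[n] x ∈ ball (T^[k] x) r} δ N0
  op : ∀ N, IsOpen (C N)
  ev : ∀ N, ∀ᶠ k in atTop, T^[k] x ∈ C N
  sub : ∀ N, C N ⊆ G T (ball (T^[k] x) r) δ N

theorem main [CompleteSpace X] {x : X}
    (hx : ∀ U ∈ 𝓝 x, ∃ δ > 0, ∀ N0, Big {n | 1 ≤ n ∧ T^[n] x ∈ U} δ N0) :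
    x ∈ closure {y | ∀ U ∈ 𝓝 y, ∃ δ > 0, ∀ N0, Big {n | 1 ≤ n ∧ T.symm^[n] y ∈ U} δ N0} := by
  have step : ∀ j (s : St T x j), ∃ t : St T x (j + 1),
      closedBall (T^[t.k] x) t.r ⊆ ball (T^[s.k] x) s.r ∩ s.C j ∧ ∀ N, t.C N ⊆ s.C N := by
    intro j s
    obtain ⟨M, hM⟩ := eventually_atTop.1 (s.ev j)
    obtain ⟨k, hk, -, hk'⟩ := big_unb s.δ0 s.big M
    obtain ⟨r, r0, hr⟩ := nhds_basis_closedBall.mem_iff.1
      ((isOpen_ball.inter (s.op j)).mem_nhds ⟨hk', hM k hk⟩)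
    have p0 : 0 < min r ((1 / 2) ^ (j + 1)) := lt_min r0 (by positivity)
    obtain ⟨δ, hδ, hb⟩ := shift T hx k (ball_mem_nhds _ p0)
    refine ⟨⟨k, _, δ, fun N => s.C N ∩ G T (ball (T^[k] x) (min r ((1 / 2) ^ (j + 1)))) δ N,
      p0, min_le_right _ _, hδ, hb, fun N => (s.op N).inter (G_open T isOpen_ball _ _),
      fun N => (s.ev N).and (G_ev T (hb N)), fun N => inter_subset_right⟩,
      (closedBall_subset_closedBall (min_le_left _ _)).trans hr, fun N => inter_subset_left⟩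
  choose step h1 h2 using step
  rw [Metric.mem_closure_iff]
  intro ε hε
  have p0 : 0 < min ε 1 := lt_min hε one_pos
  obtain ⟨δ, hδ, hb⟩ := shift T hx 0 (ball_mem_nhds _ p0)
  let s0 : St T x 0 := ⟨0, _, δ, fun N => G T (ball (T^[0] x) (min ε 1)) δ N, p0, by simp, hδ, hb,
    fun N => G_open T isOpen_ball _ _, fun N => G_ev T (hb N), fun N => subset_rfl⟩
  let s : ∀ j, St T x j := fun j => Nat.rec s0 step j
  have hs1 : ∀ j, closedBall (T^[(s (j + 1)).k] x) (s (j + 1)).r ⊆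
      ball (T^[(s j).k] x) (s j).r ∩ (s j).C j := fun j => h1 j (s j)
  have hs2 : ∀ N, Antitone fun j => (s j).C N :=
    fun N => antitone_nat_of_succ_le fun j => h2 j (s j) N
  have hs3 : Antitone fun j => closedBall (T^[(s j).k] x) (s j).r :=
    antitone_nat_of_succ_le fun j =>
      (hs1 j).trans (inter_subset_left.trans ball_subset_closedBall)
  have hc : CauchySeq fun j => T^[(s j).k] x := by
    refine cauchySeq_of_le_geometric (1 / 2) 1 (by norm_num) fun j => ?_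
    have := hs3 (Nat.le_succ j) (mem_closedBall_self (s (j + 1)).r0.le)
    rw [mem_closedBall'] at this
    rw [one_mul]
    exact this.trans (s j).r1
  obtain ⟨y, hy⟩ := cauchySeq_tendsto_of_complete hc
  have hy1 : ∀ j, y ∈ closedBall (T^[(s j).k] x) (s j).r := fun j =>
    isClosed_closedBall.mem_of_tendsto hy ((eventually_ge_atTop j).mono fun i hi =>
      hs3 hi (mem_closedBall_self (s i).r0.le))
  refine ⟨y, fun U hU => ?_, ?_⟩
  · obtain ⟨η, hη, hU⟩ := Metric.mem_nhds_iff.1 hU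
    obtain ⟨j, hj⟩ := exists_pow_lt_of_lt_one (half_pos hη) (by norm_num : (1 / 2 : ℝ) < 1)
    refine ⟨(s j).δ, (s j).δ0, fun N0 => ?_⟩
    obtain ⟨N, hN, m, hm⟩ := (s j).sub (j + N0)
      (hs2 (j + N0) (Nat.le_add_right j N0) (hs1 (j + N0) (hy1 _)).2)
    refine ⟨N, by omega, m, hm.trans ?_⟩
    have : ({n | 1 ≤ n ∧ T.symm^[n] y ∈ ball (T^[(s j).k] x) (s j).r} ∩
        Icc (m + 1) (m + N)).ncard ≤
        ({n | 1 ≤ n ∧ T.symm^[n] y ∈ U} ∩ Icc (m + 1) (m + N)).ncard := by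
      refine Set.ncard_le_ncard (fun n hn => ⟨⟨hn.1.1, hU ?_⟩, hn.2⟩)
        ((finite_Icc _ _).subset inter_subset_right)
      have a := hn.1.2
      have b := hy1 j
      have c := (s j).r1
      rw [mem_ball] at a ⊢
      rw [mem_closedBall'] at b
      linarith [dist_triangle (T.symm^[n] y) (T^[(s j).k] x) y]
    exact_mod_cast this
  · have := (hs1 0 (hy1 1)).1
    rw [mem_ball'] at this
    exact this.trans_le (min_le_left _ _)

end Pool.Agent.H.MP_3e9a14_an.B
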